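import Mathlib

/-!
# MP_b00f03_nt: the forest of a left-right pair never has a rootless component

For every subfield `K` of `ℂ` which is not contained in `ℝ` and every left-right pair `(L, R)` in
`SL₂(ℕ₀)`, every connected component of the forest `F(L, R)` contains an orphan.  Hence the set of
the left-right pairs whose forest has a rootless component is empty.

Proof.  Let `z = T(w)` with `T = (a b; c d)` and `w` in the quadrant.  Then
`Im w = |c w + d|² Im z`.  If `c ≥ 1` this gives `Im w ≥ (1 + (Im w)²) Im z` and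
`Im w ≤ 1 / Im z`; if `c = 0` then `T` is a translation by a positive integer, so
`Im w = Im z` and `Re w ≤ Re z - 1`.  Along a chain of ancestors the imaginary part never
decreases and stays bounded, so the first case occurs finitely often, and the second case cannot
occur infinitely often in a row.
-/

set_option autoImplicit false

namespace Pool.Agent.Results.MP_b00f03_nt.NoRootlessTrees

open Matrix

/-- The semigroup `SL₂(ℕ₀)` of the `2 × 2` matrices with nonnegative integral entries and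
determinant one. -/
def SL2N : Set (Matrix (Fin 2) (Fin 2) ℤ) := {T | (∀ i j, 0 ≤ T i j) ∧ T.det = 1}

/-- The action `z ↦ (a z + b) / (c z + d)` on complex numbers. -/
noncomputable def act (T : Matrix (Fin 2) (Fin 2) ℤ) (z : ℂ) : ℂ :=
  ((T 0 0 : ℂ) * z + (T 0 1 : ℂ)) / ((T 1 0 : ℂ) * z + (T 1 1 : ℂ))

/-- The set `𝒟₀ = {x + y i ∈ K : x > 0, y > 0}`. -/
def D0 (K : Subfield ℂ) : Set ℂ := {z | z ∈ K ∧ 0 < z.re ∧ 0 < z.im}

/-- Left-right pairs: ordered pairs of non-identity matrices in `SL₂(ℕ₀)` with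
`L(𝒟₀) ∩ R(𝒟₀) = ∅`. -/
def LeftRightPair (K : Subfield ℂ) (L R : Matrix (Fin 2) (Fin 2) ℤ) : Prop :=
  L ∈ SL2N ∧ R ∈ SL2N ∧ L ≠ 1 ∧ R ≠ 1 ∧ act L '' D0 K ∩ act R '' D0 K = ∅

/-- `z` is a parent of `w`: there is an edge `z → w`, that is, `w = L(z)` or `w = R(z)`. -/
def Parent (K : Subfield ℂ) (L R : Matrix (Fin 2) (Fin 2) ℤ) (z w : D0 K) : Prop :=
  (w : ℂ) = act L z ∨ (w : ℂ) = act R z

/-- The forest `F(L, R)`, as an undirected graph with vertex set `𝒟₀`; the edges join a vertex `z`
to `L(z)` and `R(z)`. -/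
def forest (K : Subfield ℂ) (L R : Matrix (Fin 2) (Fin 2) ℤ) : SimpleGraph (D0 K) :=
  SimpleGraph.fromRel (Parent K L R)

/-- An orphan is a vertex without a parent. -/
def Orphan (K : Subfield ℂ) (L R : Matrix (Fin 2) (Fin 2) ℤ) (w : D0 K) : Prop :=
  ¬ ∃ z : D0 K, Parent K L R z w

/-- A connected component is rootless if it contains no orphan. -/
def Rootless (K : Subfield ℂ) (L R : Matrix (Fin 2) (Fin 2) ℤ)
    (c : (forest K L R).ConnectedComponent) : Prop :=
  ∀ w ∈ c.supp, ¬ Orphan K L R w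

/-- One step: if `z = T(w)` with `T ≠ 1` in `SL₂(ℕ₀)` and `w` in the open quadrant, then either
`T` is a translation by an integer `≥ 1`, or the imaginary part grows in a controlled way. -/
lemma step {T : Matrix (Fin 2) (Fin 2) ℤ} (hT : T ∈ SL2N) (h1 : T ≠ 1) {w : ℂ}
    (hre : 0 < w.re) (him : 0 < w.im) :
    ((act T w).im = w.im ∧ w.re + 1 ≤ (act T w).re) ∨
    ((act T w).im * (1 + w.im ^ 2) ≤ w.im ∧ (act T w).im * w.im ≤ 1 ∧ 0 < (act T w).im) := by
  obtain ⟨hpos, hdet⟩ := hT
  rw [Matrix.det_fin_two] at hdet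
  obtain ⟨a, ha⟩ : ∃ a, a = T 0 0 := ⟨_, rfl⟩
  obtain ⟨b, hb⟩ : ∃ b, b = T 0 1 := ⟨_, rfl⟩
  obtain ⟨c, hc⟩ : ∃ c, c = T 1 0 := ⟨_, rfl⟩
  obtain ⟨d, hd⟩ : ∃ d, d = T 1 1 := ⟨_, rfl⟩
  have a0 : 0 ≤ a := ha ▸ hpos 0 0
  have b0 : 0 ≤ b := hb ▸ hpos 0 1
  have c0 : 0 ≤ c := hc ▸ hpos 1 0
  have d0 : 0 ≤ d := hd ▸ hpos 1 1
  rw [← ha, ← hb, ← hc, ← hd] at hdet
  have hact : act T w = ((a : ℂ) * w + b) / ((c : ℂ) * w + d) := by
    simp [act, ha, hb, hc, hd]
  have hd1 : 1 ≤ d := by
    rcases Nat.eq_zero_or_pos d.toNat with h | h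
    · have : d = 0 := by omega
      subst this
      nlinarith [mul_nonneg b0 c0]
    · omega
  by_cases hcz : c = 0
  · left
    subst hcz
    have had : a * d = 1 := by linarith
    have ha1 : a = 1 := by nlinarith
    have hd1' : d = 1 := by nlinarith
    have hb1 : 1 ≤ b := by
      by_contra hcon
      have hb0 : b = 0 := by omega
      apply h1
      ext i j
      fin_cases i <;> fin_cases j <;> simp [← ha, ← hb, ← hc, ← hd, ha1, hb0, hd1']
    have : act T w = w + b := by
      rw [hact, ha1, hd1']; simp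
    rw [this]
    have hb1' : (1 : ℝ) ≤ b := by exact_mod_cast hb1
    constructor
    · simp
    · simp
      exact hb1'
  · right
    have hc1 : 1 ≤ c := by omega
    have hcr : (1 : ℝ) ≤ c := by exact_mod_cast hc1
    have hdr : (1 : ℝ) ≤ d := by exact_mod_cast hd1
    have hdetr : (a : ℝ) * d - b * c = 1 := by exact_mod_cast hdet
    set N : ℝ := (c * w.re + d) ^ 2 + (c * w.im) ^ 2 with hN
    have hNsq : Complex.normSq ((c : ℂ) * w + d) = N := by
      rw [Complex.normSq_apply, hN]
      simp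
      ring
    have hNpos : 1 + w.im ^ 2 ≤ N := by
      rw [hN]
      have h2 : 1 ≤ (c : ℝ) * w.re + d := by nlinarith
      have h3 : w.im ≤ c * w.im := by nlinarith
      nlinarith
    have hNp : 0 < N := by nlinarith [sq_nonneg w.im]
    have him' : (act T w).im = w.im / N := by
      rw [hact, Complex.div_im, hNsq]
      simp
      field_simp
      linear_combination hdetr
    rw [him']
    refine ⟨?_, ?_, by positivity⟩
    · rw [div_mul_eq_mul_div, div_le_iff₀ hNp]
      nlinarith
    · rw [div_mul_eq_mul_div, div_le_iff₀ hNp]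
      nlinarith [sq_nonneg w.im]

/-- Every vertex has only finitely many ancestors; here in the form that the parent relation is
well-founded at every vertex. -/
lemma acc_all {K : Subfield ℂ} {L R : Matrix (Fin 2) (Fin 2) ℤ} (hL : L ∈ SL2N) (hR : R ∈ SL2N)
    (hL1 : L ≠ 1) (hR1 : R ≠ 1) (z : D0 K) : Acc (Parent K L R) z := by
  obtain ⟨y, hy⟩ : ∃ y : ℝ, y = (z : ℂ).im := ⟨_, rfl⟩
  have hy0 : 0 < y := hy ▸ z.2.2.2
  have key : ∀ k : ℕ, ∀ m : ℕ, ∀ v : D0 K, (v : ℂ).re ≤ m → y ≤ (v : ℂ).im →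
      1 / y < (v : ℂ).im * (1 + y ^ 2) ^ k → Acc (Parent K L R) v := by
    intro k
    induction k with
    | zero =>
      intro m
      induction m with
      | zero =>
        intro v hv
        exact absurd v.2.2.1 (not_lt.mpr (by simpa using hv))
      | succ m ih =>
        intro v hv hyv hk
        refine Acc.intro _ fun w hw => ?_
        have hs : ((v : ℂ).im = (w : ℂ).im ∧ (w : ℂ).re + 1 ≤ (v : ℂ).re) ∨
            ((v : ℂ).im * (1 + (w : ℂ).im ^ 2) ≤ (w : ℂ).im ∧ (v : ℂ).im * (w : ℂ).im ≤ 1 ∧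
              0 < (v : ℂ).im) := by
          rcases hw with hw | hw
          · rw [hw]; exact step hL hL1 w.2.2.1 w.2.2.2
          · rw [hw]; exact step hR hR1 w.2.2.1 w.2.2.2
        rcases hs with ⟨h1, h2⟩ | ⟨h1, h2, h3⟩
        · refine ih w ?_ (h1 ▸ hyv) (h1 ▸ hk)
          push_cast at hv
          linarith
        · exfalso
          have hw0 := w.2.2.2
          have h4 : (v : ℂ).im ≤ (w : ℂ).im := by nlinarith [sq_nonneg (w : ℂ).im]
          rw [pow_zero, mul_one, div_lt_iff₀ hy0] at hk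
          nlinarith
    | succ k ihk =>
      intro m
      induction m with
      | zero =>
        intro v hv
        exact absurd v.2.2.1 (not_lt.mpr (by simpa using hv))
      | succ m ih =>
        intro v hv hyv hk
        refine Acc.intro _ fun w hw => ?_
        have hs : ((v : ℂ).im = (w : ℂ).im ∧ (w : ℂ).re + 1 ≤ (v : ℂ).re) ∨
            ((v : ℂ).im * (1 + (w : ℂ).im ^ 2) ≤ (w : ℂ).im ∧ (v : ℂ).im * (w : ℂ).im ≤ 1 ∧
              0 < (v : ℂ).im) := by
          rcases hw with hw | hw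
          · rw [hw]; exact step hL hL1 w.2.2.1 w.2.2.2
          · rw [hw]; exact step hR hR1 w.2.2.1 w.2.2.2
        rcases hs with ⟨h1, h2⟩ | ⟨h1, h2, h3⟩
        · refine ih w ?_ (h1 ▸ hyv) (h1 ▸ hk)
          push_cast at hv
          linarith
        · have hw0 := w.2.2.2
          have h4 : (v : ℂ).im ≤ (w : ℂ).im := by nlinarith [sq_nonneg (w : ℂ).im]
          obtain ⟨m', hm'⟩ := exists_nat_ge (w : ℂ).re
          refine ihk m' w hm' (hyv.trans h4) ?_
          have h5 : (v : ℂ).im * (1 + y ^ 2) ≤ (w : ℂ).im := by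
            refine le_trans ?_ h1
            apply mul_le_mul_of_nonneg_left _ h3.le
            nlinarith
          calc 1 / y < (v : ℂ).im * (1 + y ^ 2) ^ (k + 1) := hk
            _ = (v : ℂ).im * (1 + y ^ 2) * (1 + y ^ 2) ^ k := by ring
            _ ≤ (w : ℂ).im * (1 + y ^ 2) ^ k := by
              apply mul_le_mul_of_nonneg_right h5
              positivity
  obtain ⟨m, hm⟩ := exists_nat_ge (z : ℂ).re
  obtain ⟨k, hk⟩ := pow_unbounded_of_one_lt (1 / y / y) (y := 1 + y ^ 2) (by nlinarith)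
  refine key k m z hm hy.le ?_
  rw [← hy]
  rw [div_lt_iff₀ hy0] at hk
  linarith

/-- **No left-right pair has a rootless component**: for every subfield `K` of `ℂ` not contained in
`ℝ`, the set of the left-right pairs `(L, R)` for which the forest `F(L, R)` has at least one
rootless component is empty. -/
theorem result (K : Subfield ℂ) (_hK : ¬ ∀ z ∈ K, z.im = 0) :
    {p : Matrix (Fin 2) (Fin 2) ℤ × Matrix (Fin 2) (Fin 2) ℤ | LeftRightPair K p.1 p.2 ∧
      ∃ c : (forest K p.1 p.2).ConnectedComponent, Rootless K p.1 p.2 c} = ∅ := by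
  rw [Set.eq_empty_iff_forall_notMem]
  rintro ⟨L, R⟩ ⟨⟨hL, hR, hL1, hR1, -⟩, c, hc⟩
  simp only at hL hR hL1 hR1 c hc
  obtain ⟨z, hz⟩ := c.exists_rep
  have main : ∀ v : D0 K, ∃ w, Orphan K L R w ∧ (forest K L R).Reachable v w := by
    intro v
    induction acc_all hL hR hL1 hR1 v with
    | intro v _ ih =>
      by_cases ho : Orphan K L R v
      · exact ⟨v, ho, SimpleGraph.Reachable.refl _⟩
      · rw [Orphan, not_not] at ho
        obtain ⟨u, hu⟩ := ho
        obtain ⟨w, hw1, hw2⟩ := ih u hu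
        refine ⟨w, hw1, ?_⟩
        by_cases huv : v = u
        · rw [huv]; exact hw2
        · refine SimpleGraph.Reachable.trans (SimpleGraph.Adj.reachable ?_) hw2
          rw [forest, SimpleGraph.fromRel_adj]
          exact ⟨huv, Or.inr hu⟩
  obtain ⟨w, hw1, hw2⟩ := main z
  refine hc w ?_ hw1
  rw [SimpleGraph.ConnectedComponent.mem_supp_iff, ← hz]
  exact (SimpleGraph.ConnectedComponent.sound hw2).symm

end Pool.Agent.Results.MP_b00f03_nt.NoRootlessTrees
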